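import Pool.Agent.H20.FT.Targets

/-!
# FewTerms: row LM
-/

set_option autoImplicit false

open NumberField Height Finset Pool.Agent.H20.FT

namespace Pool.Agent.H97.FT

private theorem sum_mult_le {F : Type} [Field F] [NumberField F] (x : F) :
    ∑ v : InfinitePlace F, (v.mult : ℝ) * Real.posLog (v x) ≤ logHeight₁ x := by
  rw [NumberField.logHeight₁_eq]
  have : 0 ≤ ∑ᶠ v : FinitePlace F, Real.posLog (v x) := finsum_nonneg fun v => Real.posLog_nonneg
  linarith

private theorem real_step {h n p q B : ℝ} (hp : 2 ≤ p) (hn : 0 ≤ n)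
    (h1 : -B ≤ p ^ 2 * h + n / 30)
    (h2 : B ≤ -(21 / 100) * p * n + (1344 / 100 * p ^ 3 + 2 * p ^ 2) * h) :
    n / (150 * p ^ 2) ≤ h := by
  have hp0 : 0 < p := by linarith
  have h3 : (21 / 100) * p * n - n / 30 ≤ (1344 / 100 * p ^ 3 + 3 * p ^ 2) * h := by
    linarith
  have h4 : (29 / 150) * (p * n) ≤ (21 / 100) * p * n - n / 30 := by
    nlinarith
  have hh : 0 ≤ h := by
    by_contra hcon
    have h5 : h < 0 := not_le.1 hcon
    have h6 : (1344 / 100 * p ^ 3 + 3 * p ^ 2) * h < 0 := mul_neg_of_pos_of_neg (by positivity) h5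
    have h7 : 0 ≤ (29 / 150) * (p * n) := by positivity
    linarith
  have h5 : (1344 / 100 * p ^ 3 + 3 * p ^ 2) * h ≤ (15 * p ^ 3) * h := by
    apply mul_le_mul_of_nonneg_right _ hh
    have : 2 * p ^ 2 ≤ p ^ 3 := by
      have : p ^ 3 = p * p ^ 2 := by ring
      rw [this]
      exact mul_le_mul_of_nonneg_right hp (sq_nonneg p)
    nlinarith
  have h6 : p * ((29 / 150) * n) ≤ p * (15 * p ^ 2 * h) := by
    have e1 : p * (15 * p ^ 2 * h) = (15 * p ^ 3) * h := by ring
    linarith
  have h7 := le_of_mul_le_mul_left h6 hp0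
  rw [div_le_iff₀ (by positivity)]
  nlinarith

theorem pf_LM (h1 : T_LI) (h2 : T_IN) (h3 : T_GS) (h4 : T_FN) (h5 : T_AR) : T_LM := by
  intro F H ι _ _ _ _ _ ρ ψ c hcard hψ hc hρc hρψ
  classical
  set p : ℝ := (Fintype.card ι : ℝ) with hp
  set n : ℝ := (Module.finrank ℚ F : ℝ) with hn
  set α : F := ∑ i, c i with hα
  set h : ℝ := logHeight₁ α with hh
  have hp2 : (2 : ℝ) ≤ p := by rw [hp]; exact_mod_cast hcard
  have hp0 : 0 < p := by linarith
  have hH0 : (0 : ℝ) < Fintype.card H := by exact_mod_cast Fintype.card_pos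
  -- the characters are different
  have hinj : Function.Injective ψ := by
    intro i j hij
    by_contra hne
    have h6 := hψ i j hne
    have h60 : ψ j / ψ j = 1 := by
      refine MonoidHom.ext fun x => ?_
      rw [MonoidHom.div_apply, div_self', MonoidHom.one_apply]
    rw [hij, h60] at h6
    have h7 : Nat.card (1 : H →* Fˣ).range = 1 := by
      rw [MonoidHom.range_one]
      exact Subgroup.card_bot
    rw [h7] at h6
    have h8 : 1 ≤ Fintype.card ι ^ 4 := Nat.one_le_pow _ _ (by omega)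
    omega
  -- the good element
  obtain ⟨σ, hσ, hσs⟩ := h3 F H ι ψ hψ
  have hroot : ∀ i, (ψ i σ : F) ^ Fintype.card H = 1 := by
    intro i
    rw [← Units.val_pow_eq_pow_val, ← map_pow, pow_card_eq_one, map_one, Units.val_one]
  have hfin := h4 F ι (ρ σ).toRingEquiv c (fun i => (ψ i σ : F)) hc
    (fun i => ⟨Fintype.card H, Fintype.card_pos, hroot i⟩) (fun i => hρc σ i)
    (fun i => hρψ σ σ i) (fun i j hij => by
      by_contra hne
      exact hσ i j hne (Units.ext hij))
  have hLfsum : ∑ i, Lf (c i) ≤ p ^ 2 * h + n / 30 := by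
    calc ∑ i, Lf (c i) ≤ ∑ i, (p * h +
          ∑ j ∈ univ.erase i, Li (1 - (ψ i σ : F) / (ψ j σ : F))) := sum_le_sum fun i _ => hfin i
      _ = p * (p * h) + ∑ i, ∑ j ∈ univ.erase i, Li (1 - (ψ i σ : F) / (ψ j σ : F)) := by
          rw [sum_add_distrib, sum_const, card_univ, nsmul_eq_mul]
      _ ≤ p * (p * h) + n / 30 := by
          have := hσs
          linarith
      _ = p ^ 2 * h + n / 30 := by ring
  -- the infinite places
  have hLi : ∑ i, Lf (c i) = -∑ v : InfinitePlace F, (v.mult : ℝ) *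
      ∑ i, Real.log (v (c i)) := by
    rw [sum_congr rfl fun i _ => (h1 F).1 (c i) (hc i), sum_neg_distrib]
    congr 1
    unfold Li
    rw [sum_comm]
    refine sum_congr rfl fun v _ => ?_
    rw [mul_sum]
  set Φ : InfinitePlace F → ℝ := fun v => ∑ τ, Real.posLog (v (ρ τ α)) with hΦ
  have hΦ0 : ∀ v, 0 ≤ Φ v := fun v => sum_nonneg fun τ _ => Real.posLog_nonneg
  have hΦsum : ∑ v : InfinitePlace F, (v.mult : ℝ) * Φ v ≤ Fintype.card H * h := by
    calc ∑ v : InfinitePlace F, (v.mult : ℝ) * Φ v =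
        ∑ τ : H, ∑ v : InfinitePlace F, (v.mult : ℝ) * Real.posLog (v (ρ τ α)) := by
          rw [sum_comm]
          refine sum_congr rfl fun v _ => ?_
          rw [hΦ, mul_sum]
      _ ≤ ∑ τ : H, logHeight₁ (ρ τ α) := sum_le_sum fun τ _ => sum_mult_le _
      _ = ∑ _τ : H, h := sum_congr rfl fun τ _ => h2 F (ρ τ).toRingEquiv α
      _ = Fintype.card H * h := by rw [sum_const, card_univ, nsmul_eq_mul]
  have hbv : ∀ v : InfinitePlace F, ∑ i, Real.log (v (c i)) ≤
      -(21 / 100) * p + (1344 / 100 * p ^ 3 + 2 * p ^ 2) * (Φ v / Fintype.card H) := by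
    intro v
    obtain ⟨ha, hb⟩ := h5 F H ι ρ ψ c v hcard hinj hc hρc
    have h6 : 0 ≤ Φ v / Fintype.card H := div_nonneg (hΦ0 v) hH0.le
    by_cases hs : Φ v ≤ Fintype.card H / (64 * p ^ 2)
    · have h7 := ha hs
      have h8 : 0 ≤ (1344 / 100 * p ^ 3 + 2 * p ^ 2) * (Φ v / Fintype.card H) := by positivity
      linarith
    · have h7 : Fintype.card H / (64 * p ^ 2) < Φ v := not_le.1 hs
      have h8 : 1 / (64 * p ^ 2) ≤ Φ v / Fintype.card H := by
        rw [le_div_iff₀ hH0]
        refine le_trans (le_of_eq ?_) h7.le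
        ring
      have h9 : 1344 / 100 * p ^ 3 * (1 / (64 * p ^ 2)) = 21 / 100 * p := by
        field_simp
        norm_num
      have h10 := mul_le_mul_of_nonneg_left h8 (show 0 ≤ 1344 / 100 * p ^ 3 by positivity)
      rw [h9] at h10
      have h11 : ∑ i, Real.log (v (c i)) ≤ 2 * p ^ 2 * (Φ v / Fintype.card H) := by
        have h12 : ∑ i, Real.log (v (c i)) ≤ (2 * p ^ 2 * Φ v) / Fintype.card H := by
          rw [le_div_iff₀ hH0, mul_comm]
          exact hb
        refine h12.trans (le_of_eq ?_)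
        ring
      linarith
  have hmult : ∑ v : InfinitePlace F, (v.mult : ℝ) = n := by
    rw [hn, ← InfinitePlace.sum_mult_eq (K := F)]
    push_cast
    rfl
  have hB : ∑ v : InfinitePlace F, (v.mult : ℝ) * ∑ i, Real.log (v (c i)) ≤
      -(21 / 100) * p * n + (1344 / 100 * p ^ 3 + 2 * p ^ 2) * h := by
    calc ∑ v : InfinitePlace F, (v.mult : ℝ) * ∑ i, Real.log (v (c i)) ≤
        ∑ v : InfinitePlace F, (v.mult : ℝ) *
          (-(21 / 100) * p + (1344 / 100 * p ^ 3 + 2 * p ^ 2) * (Φ v / Fintype.card H)) :=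
          sum_le_sum fun v _ => mul_le_mul_of_nonneg_left (hbv v) (Nat.cast_nonneg _)
      _ = -(21 / 100) * p * ∑ v : InfinitePlace F, (v.mult : ℝ) +
          (1344 / 100 * p ^ 3 + 2 * p ^ 2) *
            ((∑ v : InfinitePlace F, (v.mult : ℝ) * Φ v) / Fintype.card H) := by
          rw [sum_div, mul_sum, mul_sum, ← sum_add_distrib]
          refine sum_congr rfl fun v _ => ?_
          ring
      _ ≤ -(21 / 100) * p * n + (1344 / 100 * p ^ 3 + 2 * p ^ 2) * h := by
          rw [hmult]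
          have h6 : (∑ v : InfinitePlace F, (v.mult : ℝ) * Φ v) / Fintype.card H ≤ h := by
            rw [div_le_iff₀ hH0, mul_comm h]
            exact hΦsum
          have h7 := mul_le_mul_of_nonneg_left h6
            (show 0 ≤ 1344 / 100 * p ^ 3 + 2 * p ^ 2 by positivity)
          linarith
  rw [hLi] at hLfsum
  exact real_step (q := 0) hp2 (Nat.cast_nonneg _) hLfsum hB

end Pool.Agent.H97.FT
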