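import Pool.Agent.H52.FT.Targets

namespace Pool.Agent.H97.FT.GR

open Pool.Agent.H52.FT

variable {α : Type} [DecidableEq α]

/-- a word starting with a letter that does not occur -/
lemma missing (V : Finset α) (w : List α) (k : ℕ) (hk : 1 ≤ k) (hV : k ≤ V.card) (z : α)
    (hz : z ∈ V) (hzw : z ∉ w) : ∃ L : List α, Wd V L ∧ L.length = k ∧ ¬ L.Sublist w := by
  have h1 : k - 1 ≤ (V.erase z).card := by
    rw [Finset.card_erase_of_mem hz]; omega
  obtain ⟨U, hU, hUc⟩ := Finset.exists_subset_card_eq h1
  refine ⟨z :: U.toList, ⟨?_, ?_⟩, ?_, ?_⟩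
  · rw [List.nodup_cons]
    refine ⟨fun h => ?_, U.nodup_toList⟩
    rw [Finset.mem_toList] at h
    exact (Finset.mem_erase.mp (hU h)).1 rfl
  · intro y hy
    rcases List.mem_cons.mp hy with rfl | h
    · exact hz
    · rw [Finset.mem_toList] at h
      exact Finset.mem_of_mem_erase (hU h)
  · rw [List.length_cons, Finset.length_toList, hUc]; omega
  · intro h
    exact hzw (h.subset List.mem_cons_self)

lemma cons_sub_append {z : α} {L I J : List α} (hI : z ∉ I) (h : (z :: L).Sublist (I ++ z :: J)) :
    L.Sublist J := by
  induction I with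
  | nil =>
    rw [List.nil_append] at h
    exact List.cons_sublist_cons.mp h
  | cons a I ih =>
    have hza : z ≠ a := fun h' => hI (by simp [h'])
    rw [List.cons_append] at h
    rcases List.sublist_cons_iff.mp h with h1 | ⟨r, h1, h2⟩
    · exact ih (fun h' => hI (List.mem_cons_of_mem _ h')) h1
    · rw [List.cons.injEq] at h1
      exact absurd h1.1 hza

theorem gr : T_GR := by
  intro α _ V w k
  induction k generalizing V w with
  | zero => intro h; omega
  | succ k ih =>
    intro _ hV hc
    by_cases hmiss : ∃ z ∈ V, z ∉ w
    · obtain ⟨z, hz, hzw⟩ := hmiss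
      exact missing V w (k + 1) (by omega) hV z hz hzw
    · push Not at hmiss
      have hne : V.Nonempty := by rw [← Finset.card_pos]; omega
      obtain ⟨z, hz, hmax⟩ := Finset.exists_max_image V (fun z => w.idxOf z) hne
      have hzw := hmiss z hz
      have hk : 1 ≤ k := by
        have h1 := hc z hz
        have h2 := List.count_pos_iff.mpr hzw
        omega
      obtain ⟨I, J, hw, hI⟩ := List.append_of_mem hzw |> fun _ =>
        (List.eq_append_cons_of_mem hzw)
      have hidx : w.idxOf z = I.length := by
        rw [hw, List.idxOf_append_of_notMem hI, List.idxOf_cons_self, add_zero]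
      have hcount : ∀ y ∈ V.erase z, J.count y < k := by
        intro y hy
        obtain ⟨hyz, hyV⟩ := Finset.mem_erase.mp hy
        have hyI : y ∈ I := by
          by_contra hyI
          have h1 := hmax y hyV
          have h2 : w.idxOf y = I.length + (z :: J).idxOf y := by
            rw [hw, List.idxOf_append_of_notMem hyI]
          rw [List.idxOf_cons_ne _ (Ne.symm hyz)] at h2
          have h3 : w.idxOf y ≤ w.idxOf z := h1
          omega
        have h1 := hc y hyV
        have h2 := List.count_pos_iff.mpr hyI
        rw [hw, List.count_append, List.count_cons] at h1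
        omega
      have hcard : k ≤ (V.erase z).card := by
        rw [Finset.card_erase_of_mem hz]; omega
      obtain ⟨L, hL, hLk, hLn⟩ := ih (V.erase z) J hk hcard hcount
      refine ⟨z :: L, ⟨?_, ?_⟩, by rw [List.length_cons, hLk], ?_⟩
      · rw [List.nodup_cons]
        exact ⟨fun h => (Finset.mem_erase.mp (hL.2 z h)).1 rfl, hL.1⟩
      · intro y hy
        rcases List.mem_cons.mp hy with rfl | h
        · exact hz
        · exact Finset.mem_of_mem_erase (hL.2 y h)
      · intro h
        rw [hw] at h
        exact hLn (cons_sub_append hI h)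

end Pool.Agent.H97.FT.GR
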