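import Pool.Agent.H52.FT.Targets

namespace Pool.Agent.H97.FT.WA

open Pool.Agent.H52.FT

lemma cost_flatten {α : Type} (p : α → ℝ) (Ls : List (List α)) :
    cost p Ls.flatten = (Ls.map (cost p)).sum := by
  induction Ls with
  | nil => simp [cost]
  | cons M Ls ih => rw [List.flatten_cons, cost_append, ih]; simp

lemma cost_lower {α : Type} (p : α → ℝ) (q : ℝ) (L : List α) (h : ∀ z ∈ L, q ≤ p z) :
    q * L.length ≤ cost p L := by
  induction L with
  | nil => simp
  | cons z L ih =>
    rw [cost_cons, List.length_cons]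
    push_cast
    have h1 := ih fun y hy => h y (List.mem_cons_of_mem _ hy)
    have h2 := h z List.mem_cons_self
    linarith

lemma sum_lin {β : Type} (f : β → ℝ) (a b : ℝ) (Q : List β) :
    (Q.map fun x => f x * a - b).sum = (Q.map f).sum * a - Q.length * b := by
  induction Q with
  | nil => simp
  | cons x Q ih =>
    rw [List.map_cons, List.sum_cons, ih, List.map_cons, List.sum_cons, List.length_cons]
    push_cast
    ring

lemma arith {Θ q P Γ y e A b s C : ℝ} (hΘ : 0 < Θ) (hq : 0 < q) (hqP : q ≤ P) (hΓ : 0 ≤ Γ)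
    (hy : e ≤ y) (he : 0 ≤ e) (hA : 0 < A) (hs : y ≤ A * s) (hC : C = Γ + s * P) (hs0 : 0 < s)
    (hb : (b - 1) * C ≤ 2 * Θ) (hb0 : 0 ≤ b) :
    Θ * y / P - (e + 9 * A) * (Θ / q) - (Γ / q + 1) * (2 * A * (Θ / q) + y) ≤
      Θ * ((y - e) / P) - b * ((Γ / P + 1) * (y - e)) := by
  have hP : 0 < P := lt_of_lt_of_le hq hqP
  have hCpos : 0 < C := by rw [hC]; positivity
  have hy0 : 0 ≤ y := he.trans hy
  have hR : Θ / P ≤ Θ / q := div_le_div_of_nonneg_left hΘ.le hq hqP
  have hG : Γ / P ≤ Γ / q := div_le_div_of_nonneg_left hΓ hq hqP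
  have hG0 : 0 ≤ Γ / P := by positivity
  have h1 : Θ * ((y - e) / P) = Θ * y / P - e * (Θ / P) := by
    field_simp
  -- b * y
  have hb1 : b ≤ 2 * Θ / C + 1 := by
    have : b - 1 ≤ 2 * Θ / C := (le_div_iff₀ hCpos).mpr hb
    linarith
  have hyC : y / C ≤ A / P := by
    rw [div_le_div_iff₀ hCpos hP]
    have : y * P ≤ A * s * P := mul_le_mul_of_nonneg_right hs hP.le
    have h2 : A * (s * P) ≤ A * C := by
      apply mul_le_mul_of_nonneg_left _ hA.le
      rw [hC]; linarith
    linarith
  have hby : b * y ≤ 2 * A * (Θ / q) + y := by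
    have h2 : b * y ≤ (2 * Θ / C + 1) * y := mul_le_mul_of_nonneg_right hb1 hy0
    have h3 : (2 * Θ / C + 1) * y = 2 * Θ * (y / C) + y := by ring
    have h4 : 2 * Θ * (y / C) ≤ 2 * Θ * (A / P) := mul_le_mul_of_nonneg_left hyC (by positivity)
    have h5 : 2 * Θ * (A / P) = 2 * A * (Θ / P) := by ring
    have h6 : 2 * A * (Θ / P) ≤ 2 * A * (Θ / q) := mul_le_mul_of_nonneg_left hR (by positivity)
    linarith
  have h7 : b * ((Γ / P + 1) * (y - e)) ≤ (Γ / q + 1) * (2 * A * (Θ / q) + y) := by
    have h8 : b * ((Γ / P + 1) * (y - e)) ≤ b * ((Γ / P + 1) * y) := by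
      apply mul_le_mul_of_nonneg_left _ hb0
      apply mul_le_mul_of_nonneg_left _ (by positivity)
      linarith
    have h9 : b * ((Γ / P + 1) * y) = (Γ / P + 1) * (b * y) := by ring
    have h10 : (Γ / P + 1) * (b * y) ≤ (Γ / q + 1) * (2 * A * (Θ / q) + y) :=
      mul_le_mul (by linarith) hby (by positivity) (by positivity)
    linarith
  have h11 : e * (Θ / P) ≤ e * (Θ / q) := mul_le_mul_of_nonneg_left hR he
  have h12 : 0 ≤ 9 * A * (Θ / q) := by positivity
  rw [h1]
  nlinarith

theorem wa (h : T_GC) : T_WA := by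
  intro α _ A e X p q P Γ L u E hFB hA hq hqP hΓ hnd hLu hp hEX hrep
  have hP : 0 < P := lt_of_lt_of_le hq hqP
  have hL : L ≠ [] := ne_nil_of_not_sublist hLu
  have hlen : 0 < L.length := List.length_pos_iff.mpr hL
  have hΘ : 0 < cost p L := by
    have h1 := cost_lower p q L fun z hz => (hp z hz).1
    have h2 : (0 : ℝ) < q * L.length := by
      have : (0 : ℝ) < L.length := by exact_mod_cast hlen
      positivity
    linarith
  have hA' : (1 : ℝ) ≤ A := by exact_mod_cast hA
  have hR : 0 < cost p L / q := by positivity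
  have hRP : cost p L / P ≤ cost p L / q := div_le_div_of_nonneg_left hΘ.le hq hqP
  have htot : (0 : ℝ) ≤ tot E u := Nat.cast_nonneg _
  by_cases hcase : E.card < 9 * A ∨ E.card ≤ e
  · -- trivial case
    have hy : (E.card : ℝ) ≤ e + 9 * A := by
      rcases hcase with h1 | h1
      · have : (E.card : ℝ) < 9 * A := by exact_mod_cast h1
        have he : (0 : ℝ) ≤ e := Nat.cast_nonneg _
        linarith
      · have : (E.card : ℝ) ≤ e := by exact_mod_cast h1
        linarith
    have h1 : cost p L * E.card / P = (cost p L / P) * E.card := by ring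
    have h2 : (cost p L / P) * E.card ≤ (cost p L / q) * (e + 9 * A) :=
      mul_le_mul hRP hy (Nat.cast_nonneg _) hR.le
    have h3 : 0 ≤ (Γ / q + 1) * (2 * A * (cost p L / q) + E.card) := by positivity
    linarith
  · push Not at hcase
    obtain ⟨hy9, hye⟩ := hcase
    set s₀ := E.card / A with hs₀
    have hApos : 0 < A := hA
    have hs9 : 9 ≤ s₀ := by
      rw [hs₀, Nat.le_div_iff_mul_le hApos]; exact hy9
    have hs_lt : E.card < A * (s₀ + 1) := by
      rw [hs₀]; exact Nat.lt_mul_div_succ _ hApos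
    have hs_le : A * s₀ ≤ E.card := Nat.mul_div_le _ _
    set C : ℝ := Γ + ((s₀ : ℝ) + 1) * P with hC
    have hs9' : (9 : ℝ) ≤ s₀ := by exact_mod_cast hs9
    have hCpos : 0 < C := by rw [hC]; positivity
    have hpC : ∀ z ∈ L, 0 ≤ p z ∧ p z ≤ C := by
      intro z hz
      have h1 := hp z hz
      refine ⟨hq.le.trans h1.1, h1.2.trans ?_⟩
      rw [hC]
      nlinarith
    obtain ⟨Ls, hfl, hLs, hb⟩ := h α p L C hCpos hL hpC
    have hnd' : Ls.flatten.Nodup := by rw [hfl]; exact hnd
    obtain ⟨Q, hQ1, hQ2, hQ3, hQ4⟩ := multi_split Ls u (fun M hM => (hLs M hM).1) hnd'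
      (by rw [hfl]; exact hLu)
    have hyeR : (e : ℝ) ≤ E.card := by exact_mod_cast hye.le
    -- one block
    have hblock : ∀ x ∈ Q, cost p x.1 * (((E.card : ℝ) - e) / P) -
        (Γ / P + 1) * ((E.card : ℝ) - e) ≤ (tot E x.2 : ℝ) := by
      intro x hx
      have heq : cost p x.1 * (((E.card : ℝ) - e) / P) - (Γ / P + 1) * ((E.card : ℝ) - e) =
          ((cost p x.1 - Γ) / P - 1) * ((E.card : ℝ) - e) := by
        field_simp
        ring
      rw [heq]
      have hx1 : x.1 ∈ Ls := by rw [← hQ1]; exact List.mem_map_of_mem hx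
      have hcost : cost p x.1 ≤ C := (hLs x.1 hx1).2
      set r : ℝ := (cost p x.1 - Γ) / P with hr
      have hr_le : r ≤ (s₀ : ℝ) + 1 := by
        rw [hr, div_le_iff₀ hP]
        rw [hC] at hcost
        linarith
      by_cases hr1 : r ≤ 1
      · have h1 : (r - 1) * ((E.card : ℝ) - e) ≤ 0 :=
          mul_nonpos_of_nonpos_of_nonneg (by linarith) (by linarith)
        have h2 : (0 : ℝ) ≤ tot E x.2 := Nat.cast_nonneg _
        linarith
      · push Not at hr1
        set s : ℕ := ⌈r⌉₊ - 1 with hs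
        have hceil1 : 2 ≤ ⌈r⌉₊ := by
          have h1 : (1 : ℝ) < ⌈r⌉₊ := lt_of_lt_of_le hr1 (Nat.le_ceil r)
          have h2 : 1 < ⌈r⌉₊ := by exact_mod_cast h1
          omega
        have hsr : (s : ℝ) < r := by
          have h1 : (s : ℕ) < ⌈r⌉₊ := by omega
          exact Nat.lt_ceil.mp h1
        have hrs : r ≤ (s : ℝ) + 1 := by
          have h1 := Nat.le_ceil r
          have h2 : ⌈r⌉₊ = s + 1 := by omega
          rw [h2] at h1
          push_cast at h1
          exact h1
        have hss₀ : s ≤ s₀ := by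
          have h1 : (s : ℝ) < (s₀ : ℝ) + 1 := lt_of_lt_of_le hsr hr_le
          have h2 : s < s₀ + 1 := by exact_mod_cast h1
          omega
        have hAs : A * s ≤ E.card := (Nat.mul_le_mul_left A hss₀).trans hs_le
        have hKU : KU E x.2 s := by
          intro N hN hNs
          by_contra hNx
          obtain ⟨L₁, L₂, h1, h2⟩ := hQ4 x hx
          have h3 := h2 N hNx
          have h4 := hrep L₁ x.1 L₂ N (by rw [← hfl, h1]) hN h3
          rw [hNs] at h4
          have h5 : r ≤ s := by
            rw [hr, div_le_iff₀ hP]; exact h4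
          linarith
        have h6 := hFB E x.2 s hEX hAs hKU
        have h7 : (s : ℝ) * E.card ≤ tot E x.2 + s * e := by exact_mod_cast h6
        have h8 : (r - 1) * ((E.card : ℝ) - e) ≤ s * ((E.card : ℝ) - e) :=
          mul_le_mul_of_nonneg_right (by linarith) (by linarith)
        linarith
    -- sum
    have hsum : (Q.map fun x => cost p x.1 * (((E.card : ℝ) - e) / P) -
        (Γ / P + 1) * ((E.card : ℝ) - e)).sum ≤ (Q.map fun x => (tot E x.2 : ℝ)).sum :=
      List.sum_le_sum hblock
    rw [sum_lin (fun x : List α × List α => cost p x.1)] at hsum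
    have h1 : (Q.map fun x => cost p x.1).sum = cost p L := by
      rw [← hfl, cost_flatten, ← hQ1, List.map_map]
      rfl
    have h2 : (Q.map fun x => (tot E x.2 : ℝ)).sum = (tot E u : ℝ) := by
      rw [← hQ2, tot_flatten, List.map_map]
      have : ∀ Q : List (List α × List α),
          (Q.map fun x => (tot E x.2 : ℝ)).sum = (((Q.map (tot E ∘ Prod.snd)).sum : ℕ) : ℝ) := by
        intro Q
        induction Q with
        | nil => simp
        | cons x Q ih => simp [ih]
      exact this Q
    have h3 : Q.length = Ls.length := by rw [← hQ1, List.length_map]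
    rw [h1, h2, h3] at hsum
    have h4 := arith (Θ := cost p L) (q := q) (P := P) (Γ := Γ) (y := E.card) (e := e) (A := A)
      (b := Ls.length) (s := (s₀ : ℝ) + 1) (C := C) hΘ hq hqP hΓ hyeR (Nat.cast_nonneg _)
      (by linarith) (by
        have : (E.card : ℝ) < A * ((s₀ : ℝ) + 1) := by exact_mod_cast hs_lt
        linarith) hC (by linarith) hb (Nat.cast_nonneg _)
    linarith

end Pool.Agent.H97.FT.WA
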