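import Pool.Agent.H52.FT.Targets

namespace Pool.Agent.H97.FT.WS

open Pool.Agent.H52.FT

lemma cost_upper {α : Type} (p : α → ℝ) (P : ℝ) (L : List α) (h : ∀ z ∈ L, p z ≤ P) :
    cost p L ≤ L.length * P := by
  induction L with
  | nil => simp
  | cons z L ih =>
    rw [cost_cons, List.length_cons]
    push_cast
    have h1 := ih fun y hy => h y (List.mem_cons_of_mem _ hy)
    have h2 := h z List.mem_cons_self
    linarith

lemma cost_nonneg {α : Type} (p : α → ℝ) (L : List α) (h : ∀ z ∈ L, 0 ≤ p z) :
    0 ≤ cost p L := by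
  induction L with
  | nil => simp
  | cons z L ih =>
    rw [cost_cons]
    have h1 := ih fun y hy => h y (List.mem_cons_of_mem _ hy)
    have h2 := h z List.mem_cons_self
    linarith

theorem ws (h : T_WA) : T_WS := by
  intro α _ A e X J p q Γ cl P L u E hFB hA hq hΓ hnd hLu hp hEX hE hrep
  have hΘ : 0 ≤ cost p L := cost_nonneg p L fun z hz => hq.le.trans (hp z hz).1
  have hR : 0 ≤ cost p L / q := by positivity
  have hmaps : ∀ z ∈ E, cl z ∈ Finset.range J := fun z hz => Finset.mem_range.mpr (hE z hz).2.2
  -- one class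
  have hj : ∀ j ∈ Finset.range J,
      cost p L * (∑ z ∈ E.filter (fun z => cl z = j), 1 / P (cl z)) -
        (e + 9 * A) * (cost p L / q) - (Γ / q + 1) * (2 * A * (cost p L / q) +
          ((E.filter fun z => cl z = j).card : ℝ)) ≤ (tot (E.filter fun z => cl z = j) u : ℝ) := by
    intro j _
    set F := E.filter fun z => cl z = j with hF
    have hsum : (∑ z ∈ F, 1 / P (cl z)) = F.card / P j := by
      rw [Finset.sum_congr rfl (g := fun _ => 1 / P j) fun z hz => by
        rw [(Finset.mem_filter.mp hz).2]]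
      rw [Finset.sum_const, nsmul_eq_mul]
      ring
    rw [hsum]
    rcases F.eq_empty_or_nonempty with h0 | ⟨z, hz⟩
    · rw [h0]
      have h1 : (0 : ℝ) ≤ (tot (∅ : Finset α) u : ℝ) := Nat.cast_nonneg _
      have h2 : 0 ≤ ((e : ℝ) + 9 * A) * (cost p L / q) := by positivity
      have h3 : 0 ≤ (Γ / q + 1) * (2 * A * (cost p L / q) + 0) := by positivity
      simp only [Finset.card_empty, Nat.cast_zero, zero_div, mul_zero] at *
      linarith
    · have hzE := hE z (Finset.mem_filter.mp hz).1
      have hzj : cl z = j := (Finset.mem_filter.mp hz).2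
      have hqP : q ≤ P j := by rw [← hzj]; exact hzE.1.trans hzE.2.1
      have hcard : F.card ≤ X := (Finset.card_filter_le _ _).trans hEX
      have := h α A e X p q (P j) Γ L u F hFB hA hq hqP hΓ hnd hLu hp hcard
        (fun L₁ M L₂ N h1 hN h2 => by
          have hN' : Wd E N := ⟨hN.1, fun y hy => (Finset.mem_filter.mp (hN.2 y hy)).1⟩
          have h3 := hrep L₁ M L₂ N h1 hN' h2
          have h4 := cost_upper p (P j) N fun y hy => by
            have h5 := Finset.mem_filter.mp (hN.2 y hy)
            have h6 := (hE y h5.1).2.1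
            rw [h5.2] at h6
            exact h6
          linarith)
      have h8 : cost p L * ((F.card : ℝ) / P j) = cost p L * F.card / P j := by ring
      rw [h8]
      exact this
  have hsum := Finset.sum_le_sum hj
  have h1 : ∑ j ∈ Finset.range J, (tot (E.filter fun z => cl z = j) u : ℝ) = (tot E u : ℝ) := by
    unfold tot
    push_cast
    exact Finset.sum_fiberwise_of_maps_to hmaps _
  have h2 : ∑ j ∈ Finset.range J, ∑ z ∈ E.filter (fun z => cl z = j), 1 / P (cl z) =
      ∑ z ∈ E, 1 / P (cl z) := Finset.sum_fiberwise_of_maps_to hmaps _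
  have h3 : ∑ j ∈ Finset.range J, ((E.filter fun z => cl z = j).card : ℝ) = (E.card : ℝ) := by
    rw [← Nat.cast_sum, ← Finset.card_eq_sum_card_fiberwise hmaps]
  have h4 : ∑ j ∈ Finset.range J,
      (cost p L * (∑ z ∈ E.filter (fun z => cl z = j), 1 / P (cl z)) -
        (e + 9 * A) * (cost p L / q) - (Γ / q + 1) * (2 * A * (cost p L / q) +
          ((E.filter fun z => cl z = j).card : ℝ))) =
      cost p L * ∑ z ∈ E, 1 / P (cl z) - J * (e + 9 * A) * (cost p L / q)
        - (Γ / q + 1) * (2 * A * J * (cost p L / q) + E.card) := by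
    rw [Finset.sum_sub_distrib, Finset.sum_sub_distrib, ← Finset.mul_sum, h2,
      ← Finset.mul_sum (Finset.range J) _ (Γ / q + 1),
      Finset.sum_add_distrib, h3, Finset.sum_const, Finset.sum_const, Finset.card_range,
      nsmul_eq_mul, nsmul_eq_mul]
    ring
  rw [h1, h4] at hsum
  exact hsum

end Pool.Agent.H97.FT.WS
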