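import Pool.Agent.H52.FT.Targets

namespace Pool.Agent.H97.FT.GC

open Pool.Agent.H52.FT

lemma key {α : Type} (p : α → ℝ) (C : ℝ) (hC : 0 < C) : ∀ L : List α, L ≠ [] →
    (∀ z ∈ L, 0 ≤ p z ∧ p z ≤ C) → ∃ (M : List α) (Ls : List (List α)), M ++ Ls.flatten = L ∧
      M ≠ [] ∧ 0 ≤ cost p M ∧ cost p M ≤ C ∧ (∀ M ∈ Ls, M ≠ [] ∧ cost p M ≤ C) ∧
      (Ls.length : ℝ) * C ≤ 2 * cost p L - cost p M := by
  intro L
  induction L with
  | nil => intro h; exact absurd rfl h
  | cons z L ih =>
    intro _ hp
    have hz := hp z List.mem_cons_self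
    by_cases hL : L = []
    · subst hL
      refine ⟨[z], [], by simp, by simp, ?_, ?_, by simp, ?_⟩
      · simpa [cost] using hz.1
      · simpa [cost] using hz.2
      · simp only [cost_cons, cost_nil, List.length_nil]
        push_cast
        nlinarith [hz.1]
    · obtain ⟨M, Ls, h1, h2, h3, h4, h5, h6⟩ := ih hL fun y hy => hp y (List.mem_cons_of_mem _ hy)
      by_cases hc : p z + cost p M ≤ C
      · refine ⟨z :: M, Ls, by simp [h1], by simp, ?_, ?_, h5, ?_⟩
        · rw [cost_cons]; linarith [hz.1]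
        · rw [cost_cons]; exact hc
        · rw [cost_cons, cost_cons]; linarith [hz.1]
      · push Not at hc
        refine ⟨[z], M :: Ls, by simp [h1], by simp, ?_, ?_, ?_, ?_⟩
        · simpa [cost] using hz.1
        · simpa [cost] using hz.2
        · intro M' hM'
          rcases List.mem_cons.mp hM' with rfl | h
          · exact ⟨h2, h4⟩
          · exact h5 M' h
        · simp only [cost_cons, cost_nil, List.length_cons]
          push_cast
          linarith

theorem gc : T_GC := by
  intro α p L C hC hL hp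
  obtain ⟨M, Ls, h1, h2, h3, h4, h5, h6⟩ := key p C hC L hL hp
  refine ⟨M :: Ls, by simpa using h1, ?_, ?_⟩
  · intro M' hM'
    rcases List.mem_cons.mp hM' with rfl | h
    · exact ⟨h2, h4⟩
    · exact h5 M' h
  · rw [List.length_cons]
    push_cast
    linarith

end Pool.Agent.H97.FT.GC
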